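import Pool.Agent.X39.Near.Ax
import Pool.Agent.X39.Near.Var

/-!
# The numbers `log α`, `log log α`, `log log log α`, … for ALL algebraic numbers `α` close to any number outside a set of
# dimension zero

The question is whether `log log 2` is transcendental. We prove, outside ONE set `E` of complex numbers of Hausdorff dimension
`0` (for all numbers of iterations, number fields, degrees and scales), for ALL algebraic numbers `α`, in a given number
field, which are close to a number outside `E`: the iterated logarithms `log α`, `log log α`, …, `log … log α` satisfy no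
relation of bounded degree with coefficients of polynomial size, even approximately; the coefficients may be polynomials in
arbitrary constants `ξ_1, …, ξ_g` fixed in advance (for instance `log 2`, `log log 2`, `π`). In particular nonzero integral
polynomials `P` of degree at most `d` and of height at most `T ^ A` satisfy `|P (log log α)| > T ^ (-B)`, where `T` bounds the
height of `α`.

Proof: the functions `s`, `e ^ s`, `e ^ (e ^ s)`, … are algebraically independent (Ax); in the variable `t`, the last of them,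
the levels of the library give, on compact sets, at most `C T ^ ε` exceptional `t` of height `T`, for every `ε > 0`, and so a
limsup set of dimension `0` (`Pool.Agent.X39.Near`).
-/

set_option autoImplicit false

open MvPolynomial NumberField Filter Asymptotics

namespace Pool.Agent.Results.MP_4cc0e5_nt.ApproximationsOfAllNumbers

open Pool.Agent.X39.Near (Size Dep)

/-- `e ^ (e ^ … ^ s)`, with `n` exponentials -/
noncomputable def tower (n : ℕ) (s : ℂ) : ℂ := Complex.exp^[n] s

/-- There is no relation between the numbers `v`: (1) in the sense of `Dep`, (2) for integral polynomials. -/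
def NoRelation {J : Type} {g : ℕ} (v : J → ℂ) (ξ : Fin g → ℂ) (F : Type) [Field F] [NumberField F] (ι : F →+* ℂ)
    (d A : ℕ) (B T : ℝ) : Prop :=
  ¬ Dep v ξ F ι d A B T ∧
  ∀ P : MvPolynomial J ℤ, P ≠ 0 → (∀ j, P.degreeOf j ≤ d) →
    (∀ e, |((P.coeff e : ℤ) : ℝ)| ≤ T ^ A) → T ^ (-B) < ‖aeval v P‖

theorem tower_succ (n : ℕ) (s : ℂ) : tower (n + 1) s = Complex.exp (tower n s) :=
  Function.iterate_succ_apply' _ _ _

theorem tower_an (n : ℕ) (s : ℂ) : AnalyticAt ℂ (tower n) s := by
  induction n with
  | zero => exact analyticAt_id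
  | succ n ih =>
    have h : tower (n + 1) = fun s => Complex.exp (tower n s) := funext fun s => tower_succ n s
    rw [h]
    exact ih.cexp

theorem tower_ne (n : ℕ) (s : ℂ) : deriv (tower n) s ≠ 0 := by
  induction n with
  | zero =>
    have h : tower 0 = id := rfl
    rw [h, deriv_id]
    exact one_ne_zero
  | succ n ih =>
    have h : tower (n + 1) = fun s => Complex.exp (tower n s) := funext fun s => tower_succ n s
    rw [h, ((tower_an n s).differentiableAt.hasDerivAt.cexp).deriv]
    exact mul_ne_zero (Complex.exp_ne_zero _) ih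

/-- the real functions -/
noncomputable def rt (n : ℕ) (x : ℝ) : ℝ := Real.exp^[n] x

theorem rt_succ (n : ℕ) (x : ℝ) : rt (n + 1) x = Real.exp (rt n x) := Function.iterate_succ_apply' _ _ _

theorem rt_tower (n : ℕ) (x : ℝ) : tower n (x : ℂ) = ((rt n x : ℝ) : ℂ) := by
  induction n with
  | zero => rfl
  | succ n ih => rw [tower_succ, rt_succ, ih, Complex.ofReal_exp]

theorem rt_top (n : ℕ) : Tendsto (rt n) atTop atTop := by
  induction n with
  | zero => exact tendsto_id
  | succ n ih =>
    have h : rt (n + 1) = fun x => Real.exp (rt n x) := funext fun x => rt_succ n x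
    rw [h]
    exact Real.tendsto_exp_atTop.comp ih

theorem rt_lt {k n : ℕ} (h : k < n) : rt k =o[atTop] rt n := by
  induction n with
  | zero => exact absurd h (Nat.not_lt_zero _)
  | succ n ih =>
    have h1 : rt n =o[atTop] rt (n + 1) := by
      have h2 : (fun x : ℝ => x) =o[atTop] Real.exp := by
        have := Real.isLittleO_pow_exp_atTop (n := 1)
        simpa using this
      have h3 := h2.comp_tendsto (rt_top n)
      have e : rt (n + 1) = Real.exp ∘ rt n := funext fun x => rt_succ n x
      rw [e]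
      exact h3
    rcases Nat.lt_succ_iff_lt_or_eq.1 h with h4 | h4
    · exact (ih h4).trans h1
    · rw [h4]
      exact h1

theorem rt_ind (n : ℕ) : ∀ (M : Fin n → ℤ) (c : ℝ), (∀ x : ℝ, ∑ k, (M k : ℝ) * rt (k : ℕ) x = c) → M = 0 := by
  induction n with
  | zero =>
    intro M c _
    funext k
    exact k.elim0
  | succ n ih =>
    intro M c h
    have h0 : M (Fin.last n) = 0 := by
      have h1 : (fun x : ℝ => (M (Fin.last n) : ℝ) * rt n x) =o[atTop] rt n := by
        have e : (fun x : ℝ => (M (Fin.last n) : ℝ) * rt n x) = fun x =>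
            c - ∑ k : Fin n, (M k.castSucc : ℝ) * rt (k : ℕ) x := by
          funext x
          have := h x
          rw [Fin.sum_univ_castSucc] at this
          simp only [Fin.val_castSucc, Fin.val_last] at this
          linarith
        rw [e]
        refine IsLittleO.sub ?_ ?_
        · exact isLittleO_const_left.2 (Or.inr (tendsto_norm_atTop_atTop.comp (rt_top n)))
        · exact IsLittleO.fun_sum fun k _ => (rt_lt (Fin.is_lt k)).const_mul_left _
      by_contra hne
      have h2 : (fun x : ℝ => rt n x) =o[atTop] rt n :=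
        (isLittleO_const_mul_left_iff (c := (M (Fin.last n) : ℝ)) (by exact_mod_cast hne)).1 h1
      have h3 : ∀ᶠ x in atTop, rt n x ≠ 0 := (rt_top n).eventually_ne_atTop 0
      have h4 := h2.tendsto_div_nhds_zero
      have h5 : Tendsto (fun x => rt n x / rt n x) atTop (nhds 1) :=
        tendsto_const_nhds.congr' (by
          filter_upwards [h3] with x hx
          rw [div_self hx])
      exact zero_ne_one (tendsto_nhds_unique h4 h5)
    have h1 := ih (fun k => M k.castSucc) c (fun x => by
      have := h x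
      rw [Fin.sum_univ_castSucc, h0] at this
      simpa using this)
    funext k
    refine Fin.lastCases h0 (fun k => congrFun h1 k) k

theorem loc (n : ℕ) (t : ℂ) : Pool.Agent.Y124.LocInd (fun (k : Fin (n + 1)) s => tower ((k : ℕ) + 1) s) t := by
  refine Pool.Agent.X39.Near.loc_exp (U := Set.univ) (l := fun (k : Fin (n + 1)) s => tower (k : ℕ) s) (Nat.succ_pos n)
    isOpen_univ isPreconnected_univ Set.univ_nonempty (fun k u _ => tower_an _ u) ?_ (fun k u _ => tower_an _ u)
    (Fintype.card_fin _) (G := ∅) Set.countable_empty ?_ ?_ t (Set.mem_univ _)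
  · intro M c hM
    have hc : c = ((c.re : ℝ) : ℂ) := by
      have h0 := hM ((0 : ℝ) : ℂ) (Set.mem_univ _)
      simp only [rt_tower] at h0
      rw [← h0]
      have : (∑ k : Fin (n + 1), (M k : ℂ) * ((rt (k : ℕ) 0 : ℝ) : ℂ)) =
        ((∑ k : Fin (n + 1), (M k : ℝ) * rt (k : ℕ) 0 : ℝ) : ℂ) := by push_cast; rfl
      rw [this, Complex.ofReal_re]
    refine rt_ind (n + 1) M c.re fun x => ?_
    have h1 := hM (x : ℂ) (Set.mem_univ _)
    simp only [rt_tower] at h1
    rw [hc] at h1
    exact_mod_cast h1
  · intro F _ z _ k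
    rcases k with ⟨_ | k, hk⟩
    · exact Pool.Agent.Y685.subset_clo (Set.mem_insert _ _)
    · exact Pool.Agent.Y685.subset_clo (Or.inr ⟨⟨k, by omega⟩, rfl⟩)
  · intro F _ z _ k
    exact Pool.Agent.Y685.subset_clo (Or.inr ⟨k, tower_succ _ _⟩)

/-- the exchange of the variables -/
def sw (n : ℕ) : Option (Fin (n + 1)) → Option (Fin (n + 1))
  | none => some (Fin.last n)
  | some k => Fin.cases none (fun j => some j.castSucc) k

/-- the inverse -/
def bk (n : ℕ) : Option (Fin (n + 1)) → Option (Fin (n + 1))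
  | none => some 0
  | some k => Fin.lastCases none (fun j => some j.succ) k

theorem sw_inj (n : ℕ) : Function.Injective (sw n) := by
  have h : Function.LeftInverse (bk n) (sw n) := by
    rintro (_ | k)
    · show Fin.lastCases none (fun j : Fin n => some j.succ) (Fin.last n) = none
      rw [Fin.lastCases_last]
    · refine Fin.cases ?_ (fun j => ?_) k
      · rfl
      · show Fin.lastCases none (fun j : Fin n => some j.succ) j.castSucc = some j.succ
        rw [Fin.lastCases_castSucc]
  exact h.injective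

theorem sw_eval (n : ℕ) (s : ℂ) (o : Option (Fin (n + 1))) :
    (sw n o).elim s (fun k => tower ((k : ℕ) + 1) s) = o.elim (tower (n + 1) s) fun k => tower (k : ℕ) s := by
  rcases o with _ | k
  · rfl
  · refine Fin.cases ?_ (fun j => ?_) k
    · rfl
    · rfl

/-- balls -/
noncomputable def bl (i : ℕ × ℕ) : Set ℂ := Metric.ball (TopologicalSpace.denseSeq ℂ i.1) (1 / ((i.2 : ℝ) + 1))

/-- **Theorem.** Let `ξ_1, …, ξ_g` be complex numbers. There is a set `E` of complex numbers of Hausdorff dimension `0` such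
that for all `n` and all `s₀` with `e ^ (… ^ s₀) ∉ E` (`n + 1` exponentials) there is `δ > 0` such that for all number fields
`F` with an embedding `ι` in `ℂ`, all `d`, `A` and `ω > 0` there are `B`, `T₁` such that for all `T ≥ T₁`, all `α ∈ F`,
quotients of integers with conjugates at most `T`, with `|ι α - e ^ (… ^ s₀)| ≤ T ^ (-ω)`, and all `s` with
`e ^ (… ^ s) = ι α` and `|s - s₀| < δ`: there is no relation between the `n + 1` numbers `s`, `e ^ s`, `e ^ (e ^ s)`, …, the
iterated logarithms of `α`. -/
theorem result {g : ℕ} (ξ : Fin g → ℂ) :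
    ∃ E : Set ℂ, dimH E = 0 ∧ ∀ (n : ℕ) (s₀ : ℂ), tower (n + 1) s₀ ∉ E → ∃ δ : ℝ, 0 < δ ∧
      ∀ (F : Type) [Field F] [NumberField F] (ι : F →+* ℂ) (d A : ℕ) (ω : ℝ), 0 < ω → ∃ B T₁ : ℝ, ∀ T : ℝ, T₁ ≤ T →
        ∀ α : F, Size F T α → ‖ι α - tower (n + 1) s₀‖ ≤ T ^ (-ω) → ∀ s : ℂ, tower (n + 1) s = ι α → ‖s - s₀‖ < δ →
          NoRelation (fun k : Fin (n + 1) => tower (k : ℕ) s) ξ F ι d A B T := by
  classical
  have H : ∀ i : ℕ × (ℕ × ℕ), ∃ E : Set ℂ, dimH E = 0 ∧ (Set.InjOn (tower (i.1 + 1)) (bl i.2) →
      ∀ s₀ ∈ bl i.2, tower (i.1 + 1) s₀ ∉ E →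
      ∀ (F : Type) [Field F] [NumberField F] (ι : F →+* ℂ) (d A : ℕ) (ω : ℝ), 0 < ω → ∃ B T₁ : ℝ, ∀ T : ℝ, T₁ ≤ T →
        ∀ t : F, Size F T t → ‖ι t - tower (i.1 + 1) s₀‖ ≤ T ^ (-ω) → ∀ s ∈ bl i.2, tower (i.1 + 1) s = ι t →
          ¬ Dep (fun k : Fin (i.1 + 1) => tower (k : ℕ) s) ξ F ι d A B T) := by
    intro i
    by_cases hI : Set.InjOn (tower (i.1 + 1)) (bl i.2)
    · obtain ⟨E, h1, h2⟩ := Pool.Agent.X39.Near.near_inj (V := bl i.2) Metric.isOpen_ball
        (φ := tower (i.1 + 1)) (fun z _ => tower_an _ z) hI (fun z _ => tower_ne _ z)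
        (fun (k : Fin (i.1 + 1)) z => tower (k : ℕ) z) (fun k z _ => tower_an _ z)
        (fun s₀ _ P hP => by
          apply rename_injective _ (sw_inj i.1)
          rw [map_zero]
          apply loc i.1 s₀
          filter_upwards [hP] with s hs
          rw [eval_rename, ← hs]
          congr 2
          funext o
          exact sw_eval _ s o) ξ
      exact ⟨E, h1, fun _ => h2⟩
    · exact ⟨∅, dimH_empty, fun a => absurd a hI⟩
  choose E hE0 hE using H
  refine ⟨⋃ i, E i, by rw [dimH_iUnion]; simp [hE0], fun n s₀ hx => ?_⟩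
  obtain ⟨a, b, hab, -, hinj⟩ := Pool.Agent.X39.Near.exists_ball_inj isOpen_univ (φ := tower (n + 1)) (s₀ := s₀)
    (Set.mem_univ _) (tower_an _ s₀) (tower_ne _ s₀)
  obtain ⟨δ, hδ, hδb⟩ := Metric.isOpen_iff.1 (Metric.isOpen_ball (x := TopologicalSpace.denseSeq ℂ a)
    (ε := 1 / ((b : ℝ) + 1))) s₀ hab
  refine ⟨δ, hδ, fun F _ _ ι d A ω hω => ?_⟩
  obtain ⟨B, T₁, h2⟩ := hE (n, (a, b)) hinj s₀ hab (fun h => hx (Set.mem_iUnion.2 ⟨_, h⟩)) F ι d A ω hω
  refine ⟨B, max T₁ 1, fun T hT t ht htx p hp hpp => ?_⟩
  have hpb : p ∈ bl (a, b) := hδb (by rwa [Metric.mem_ball, dist_eq_norm])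
  have h4 : ¬ Dep (fun k : Fin (n + 1) => tower (k : ℕ) p) ξ F ι d A B T :=
    h2 T ((le_max_left _ _).trans hT) t ht htx p hpb hp
  have hT0 : 0 < T := lt_of_lt_of_le one_pos ((le_max_right _ _).trans hT)
  exact ⟨h4, fun P hP hPd hPA => Pool.Agent.X39.Near.int_of_not_dep h4 hT0 P hP hPd fun e => by
      exact_mod_cast hPA e⟩

end Pool.Agent.Results.MP_4cc0e5_nt.ApproximationsOfAllNumbers
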